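import Pool.Agent.D0H19.HS.Stm

/-! # Project HS: descendants in the Hecke tree -/

set_option autoImplicit false

open Finset

namespace Pool.Agent.D0H98.HS

open Pool.Agent.D0H19.HS
open Pool.Agent.N889.SN (Per)

/-- the descendants with large value -/
noncomputable def SS (U : ℂ → ℂ) (z : ℂ) (l : ℕ) (A κ : ℝ) (d : ℕ) : Finset ℕ := by
  classical
  exact (range (l ^ d)).filter fun t => A / κ ^ d ≤ ‖U ((z + t) / (l : ℂ) ^ d)‖

lemma mem_SS (U : ℂ → ℂ) (z : ℂ) (l : ℕ) (A κ : ℝ) (d t : ℕ) :
    t ∈ SS U z l A κ d ↔ t < l ^ d ∧ A / κ ^ d ≤ ‖U ((z + t) / (l : ℂ) ^ d)‖ := by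
  classical
  unfold SS
  rw [mem_filter, mem_range]

lemma step {K : ℕ → ℝ} {U : ℂ → ℂ} (hU : Per K U) {l : ℕ} (hl : l.Prime) {z : ℂ} {A κ : ℝ}
    (hz : 0 < z.im) (hA : 0 < A) (hK : 0 ≤ K l) (hκ : κ = 2 * l + 2 * K l) (d : ℕ) :
    l * (SS U z l A κ d).card ≤ (SS U z l A κ (d + 1)).card + (SS U z l A κ (d + 2)).card := by
  classical
  have hl0 : 0 < l := hl.pos
  have hlr : (2 : ℝ) ≤ l := by exact_mod_cast hl.two_le
  have hlc : (l : ℂ) ≠ 0 := by exact_mod_cast hl0.ne'
  have hκ4 : 4 ≤ κ := by rw [hκ]; linarith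
  have hκ0 : 0 < κ := by linarith
  set E : Finset ℕ := (SS U z l A κ d ×ˢ range l).image fun p => p.1 + p.2 * l ^ d with hE
  have hEc : E.card = l * (SS U z l A κ d).card := by
    rw [hE, card_image_of_injOn, card_product, card_range, mul_comm]
    rintro ⟨t, j⟩ h1 ⟨t', j'⟩ h2 heq
    rw [mem_coe, mem_product] at h1 h2
    have ht : t < l ^ d := ((mem_SS U z l A κ d t).1 h1.1).1
    have ht' : t' < l ^ d := ((mem_SS U z l A κ d t').1 h2.1).1
    have heq' : t + j * l ^ d = t' + j' * l ^ d := heq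
    have e1 : t = t' := by
      have := congrArg (fun n => n % l ^ d) heq'
      simpa [Nat.mod_eq_of_lt ht, Nat.mod_eq_of_lt ht'] using this
    subst e1
    have e2 : j * l ^ d = j' * l ^ d := by omega
    have e3 := Nat.eq_of_mul_eq_mul_right (pow_pos hl0 d) e2
    rw [e3]
  have hsub : E ⊆ SS U z l A κ (d + 1) ∪
      (SS U z l A κ (d + 2)).image (fun n => n % l ^ (d + 1)) := by
    intro t' ht'
    rw [hE, mem_image] at ht'
    obtain ⟨⟨t, j⟩, h1, h2⟩ := ht'
    rw [mem_product] at h1
    obtain ⟨ht, hj⟩ := h1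
    have ht := (mem_SS U z l A κ d t).1 ht
    have hj : j < l := mem_range.1 hj
    have h2' : t + j * l ^ d = t' := h2
    have ht'lt : t' < l ^ (d + 1) := by
      rw [← h2', pow_succ]
      calc t + j * l ^ d < l ^ d + j * l ^ d := Nat.add_lt_add_right ht.1 _
        _ = (j + 1) * l ^ d := by ring
        _ ≤ l * l ^ d := Nat.mul_le_mul_right _ hj
        _ = l ^ d * l := mul_comm _ _
    rw [mem_union]
    by_cases hc : A / κ ^ (d + 1) ≤ ‖U ((z + t') / (l : ℂ) ^ (d + 1))‖
    · left
      rw [mem_SS]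
      exact ⟨ht'lt, hc⟩
    · right
      rw [not_le] at hc
      obtain ⟨lam, hlam, hH⟩ := hU.hecke l hl
      obtain ⟨c, hcdef⟩ : ∃ c : ℂ, c = (z + t') / (l : ℂ) ^ (d + 1) := ⟨_, rfl⟩
      have him : ∀ (n k : ℕ), 0 < ((z + (n : ℂ)) / (l : ℂ) ^ k).im := by
        intro n k
        have e1 : (z + (n : ℂ)) / (l : ℂ) ^ k = (z + (n : ℂ)) / (((l : ℝ) ^ k : ℝ) : ℂ) := by
          push_cast; rfl
        rw [e1, Complex.div_ofReal_im]
        have e2 : (z + (n : ℂ)).im = z.im := by simp
        rw [e2]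
        have : (0 : ℝ) < (l : ℝ) ^ k := by positivity
        positivity
      have hcim : 0 < c.im := by rw [hcdef]; exact him t' (d + 1)
      have h3 := hH c hcim
      have h4 : U (l * c) = U ((z + t) / (l : ℂ) ^ d) := by
        have e1 : (l : ℂ) * c = (z + t) / (l : ℂ) ^ d + (j : ℕ) := by
          rw [hcdef, ← h2']
          push_cast
          rw [pow_succ]
          field_simp
          ring
        rw [e1, hU.nat j (him t d)]
      have h5 : ∑ i ∈ range l, U ((c + i) / l) = lam * U c - U ((z + t) / (l : ℂ) ^ d) := by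
        rw [← h3, h4, add_sub_cancel_left]
      have h6 : A / κ ^ d / 2 ≤ ‖∑ i ∈ range l, U ((c + i) / l)‖ := by
        rw [h5, norm_sub_rev]
        have e1 : ‖lam * U c‖ ≤ A / κ ^ d / 2 := by
          rw [norm_mul]
          have e2 : ‖U c‖ ≤ A / κ ^ (d + 1) := by rw [hcdef]; exact hc.le
          calc ‖lam‖ * ‖U c‖ ≤ K l * (A / κ ^ (d + 1)) :=
                mul_le_mul hlam e2 (norm_nonneg _) hK
            _ = (2 * K l) * (A / κ ^ d / 2) / κ := by
                rw [pow_succ]
                field_simp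
            _ ≤ κ * (A / κ ^ d / 2) / κ := by
                have e3 : 2 * K l ≤ κ := by rw [hκ]; linarith
                have e4 : 0 ≤ A / κ ^ d / 2 := by positivity
                gcongr
            _ = A / κ ^ d / 2 := by field_simp
        have e2 := norm_sub_norm_le (U ((z + t) / (l : ℂ) ^ d)) (lam * U c)
        linarith [ht.2]
      have h7 : ∃ i ∈ range l, A / κ ^ (d + 2) ≤ ‖U ((c + i) / l)‖ := by
        by_contra hno
        push Not at hno
        have e1 : ‖∑ i ∈ range l, U ((c + i) / l)‖ < A / κ ^ d / 2 := by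
          calc ‖∑ i ∈ range l, U ((c + i) / l)‖ ≤ ∑ i ∈ range l, ‖U ((c + i) / l)‖ :=
                norm_sum_le _ _
            _ < ∑ i ∈ range l, A / κ ^ (d + 2) :=
                Finset.sum_lt_sum_of_nonempty ⟨0, mem_range.2 hl0⟩ hno
            _ = l * (A / κ ^ (d + 2)) := by
                rw [Finset.sum_const, card_range, nsmul_eq_mul]
            _ = (2 * l) * (A / κ ^ d / 2) / (κ * κ) := by
                rw [pow_add]
                field_simp
            _ ≤ (κ * κ) * (A / κ ^ d / 2) / (κ * κ) := by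
                have e3 : 2 * (l : ℝ) ≤ κ * κ := by
                  have e4 : 2 * (l : ℝ) ≤ κ := by rw [hκ]; linarith
                  nlinarith
                have e4 : 0 ≤ A / κ ^ d / 2 := by positivity
                gcongr
            _ = A / κ ^ d / 2 := by field_simp
        linarith
      obtain ⟨i, hi, h8⟩ := h7
      have hi' : i < l := mem_range.1 hi
      rw [mem_image]
      refine ⟨t' + i * l ^ (d + 1), ?_, ?_⟩
      · rw [mem_SS]
        refine ⟨?_, ?_⟩
        · calc t' + i * l ^ (d + 1) < l ^ (d + 1) + i * l ^ (d + 1) :=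
                Nat.add_lt_add_right ht'lt _
            _ = (i + 1) * l ^ (d + 1) := by ring
            _ ≤ l * l ^ (d + 1) := Nat.mul_le_mul_right _ hi'
            _ = l ^ (d + 2) := by ring
        · have e1 : (z + ((t' + i * l ^ (d + 1) : ℕ) : ℂ)) / (l : ℂ) ^ (d + 2) = (c + i) / l := by
            rw [hcdef]
            push_cast
            rw [show d + 2 = (d + 1) + 1 by ring, pow_succ (l : ℂ) (d + 1)]
            field_simp
            ring
          rw [e1]
          exact h8
      · rw [Nat.add_mul_mod_self_right, Nat.mod_eq_of_lt ht'lt]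
  calc l * (SS U z l A κ d).card = E.card := hEc.symm
    _ ≤ _ := card_le_card hsub
    _ ≤ (SS U z l A κ (d + 1)).card +
        ((SS U z l A κ (d + 2)).image (fun n => n % l ^ (d + 1))).card := card_union_le _ _
    _ ≤ _ := Nat.add_le_add_left card_image_le _

theorem t_GROW : S_GROW := by
  intro K U hU l hl z A hz hA hAU n
  have hK : 0 ≤ K l := by
    obtain ⟨c, hc, -⟩ := hU.hecke l hl
    exact (norm_nonneg _).trans hc
  have hmain : ∀ n : ℕ, ∃ d ≤ 2 * n, ((l : ℝ) / 2) ^ n ≤
      (SS U z l A (2 * l + 2 * K l) d).card := by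
    intro n
    induction n with
    | zero =>
      refine ⟨0, le_refl _, ?_⟩
      have h0 : (0 : ℕ) ∈ SS U z l A (2 * l + 2 * K l) 0 := by
        rw [mem_SS]
        refine ⟨by simp, ?_⟩
        simpa using hAU
      have h1 : 1 ≤ (SS U z l A (2 * l + 2 * K l) 0).card := card_pos.2 ⟨0, h0⟩
      rw [pow_zero]
      exact_mod_cast h1
    | succ n ih =>
      obtain ⟨d, hd, hc⟩ := ih
      have h1 := step hU hl hz hA hK rfl d
      have h2 : (l : ℝ) * (SS U z l A (2 * l + 2 * K l) d).card ≤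
          (SS U z l A (2 * l + 2 * K l) (d + 1)).card +
            (SS U z l A (2 * l + 2 * K l) (d + 2)).card := by exact_mod_cast h1
      have h3 : ((l : ℝ) / 2) ^ (n + 1) ≤ (l / 2) * (SS U z l A (2 * l + 2 * K l) d).card := by
        rw [pow_succ, mul_comm]
        exact mul_le_mul_of_nonneg_left hc (by positivity)
      rcases le_total ((SS U z l A (2 * l + 2 * K l) (d + 1)).card : ℝ)
        ((SS U z l A (2 * l + 2 * K l) (d + 2)).card : ℝ) with h4 | h4
      · exact ⟨d + 2, by omega, by linarith⟩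
      · exact ⟨d + 1, by omega, by linarith⟩
  obtain ⟨d, hd, hc⟩ := hmain n
  refine ⟨d, hd, SS U z l A (2 * l + 2 * K l) d, ?_, hc, ?_⟩
  · intro t ht
    exact mem_range.2 ((mem_SS _ _ _ _ _ _ _).1 ht).1
  · intro t ht
    exact ((mem_SS _ _ _ _ _ _ _).1 ht).2

end Pool.Agent.D0H98.HS
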