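import Pool.Agent.D0H98.HS.Pars

/-! # Project HS: hitting an interval -/

set_option autoImplicit false

open Finset

namespace Pool.Agent.D0H98.HS

open Pool.Agent.D0H19.HS

lemma e_continuous : Continuous e := by
  unfold e
  fun_prop

/-- `1 - e y` is bounded below away from the integers -/
lemma exists_eps (r : ℝ) (hr : 0 < r) : ∃ ε : ℝ, 0 < ε ∧ ∀ y : ℝ, (∀ n : ℤ, r ≤ |y - n|) →
    ε ≤ ‖1 - e y‖ := by
  by_cases hne : (Set.Icc r (1 - r)).Nonempty
  · obtain ⟨y₀, hy₀, hmin⟩ := isCompact_Icc.exists_isMinOn hne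
      (f := fun y => ‖1 - e y‖) (by
        have := e_continuous
        fun_prop)
    refine ⟨‖1 - e y₀‖, ?_, ?_⟩
    · rw [norm_pos_iff, sub_ne_zero]
      intro h
      obtain ⟨n, hn⟩ := e_eq_one h.symm
      rw [Set.mem_Icc, hn] at hy₀
      have h1 : (0 : ℝ) < n := hr.trans_le hy₀.1
      have h2 : (n : ℝ) < 1 := by linarith
      have h3 : (0 : ℤ) < n := by exact_mod_cast h1
      have h4 : n < (1 : ℤ) := by exact_mod_cast h2
      omega
    · intro y hy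
      have h1 := hy ⌊y⌋
      have h2 := hy (⌊y⌋ + 1)
      rw [Int.self_sub_floor, abs_of_nonneg (Int.fract_nonneg _)] at h1
      have h3 : y - ((⌊y⌋ + 1 : ℤ) : ℝ) = Int.fract y - 1 := by
        push_cast
        rw [← Int.self_sub_floor]
        ring
      have h4 := Int.fract_lt_one y
      rw [h3, abs_of_nonpos (by linarith)] at h2
      have h5 : Int.fract y ∈ Set.Icc r (1 - r) := ⟨h1, by linarith⟩
      have h6 := hmin h5
      have h7 : e y = e (Int.fract y) := by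
        conv_lhs => rw [← Int.floor_add_fract y]
        exact e_int_add _ _
      rw [h7]
      exact h6
  · refine ⟨1, one_pos, fun y hy => ?_⟩
    exfalso
    apply hne
    have h1 := hy ⌊y⌋
    have h2 := hy (⌊y⌋ + 1)
    rw [Int.self_sub_floor, abs_of_nonneg (Int.fract_nonneg _)] at h1
    have h3 : y - ((⌊y⌋ + 1 : ℤ) : ℝ) = Int.fract y - 1 := by
      push_cast
      rw [← Int.self_sub_floor]
      ring
    have h4 := Int.fract_lt_one y
    rw [h3, abs_of_nonpos (by linarith)] at h2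
    exact ⟨Int.fract y, h1, by linarith⟩

/-- the bound of the geometric sum -/
lemma geom_bound (N : ℕ) (ε y : ℝ) (hε : 0 < ε) (h : ε ≤ ‖1 - e y‖) :
    ‖∑ i ∈ range N, e (i * y)‖ ^ 2 ≤ 4 / ε ^ 2 := by
  have h1 : ∑ i ∈ range N, e ((i : ℝ) * y) = ∑ i ∈ range N, e y ^ i :=
    Finset.sum_congr rfl fun i _ => e_nat_mul i y
  have h2 : e y ≠ 1 := by
    intro h2
    rw [h2, sub_self, norm_zero] at h
    linarith
  have h3 : ‖∑ i ∈ range N, e ((i : ℝ) * y)‖ ≤ 2 / ε := by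
    rw [h1, geom_sum_eq h2, norm_div, ← norm_neg (e y - 1), neg_sub]
    have h4 : ‖e y ^ N - 1‖ ≤ 2 := by
      refine (norm_sub_le _ _).trans ?_
      rw [norm_pow, norm_e, one_pow, norm_one]
      norm_num
    have h5 : 0 < ‖1 - e y‖ := hε.trans_le h
    gcongr
  calc ‖∑ i ∈ range N, e ((i : ℝ) * y)‖ ^ 2 ≤ (2 / ε) ^ 2 :=
        pow_le_pow_left₀ (norm_nonneg _) h3 2
    _ = 4 / ε ^ 2 := by ring

/-- the uniform form: `N₀` depends only on `l`, `b`, `r` -/
theorem t_HITu : S_MULT → ∀ l : ℕ, l.Prime → l ≠ 2 → ∀ b : ℕ, 1 < b → l ∣ b - 1 →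
    ∀ r : ℝ, 0 < r → ∃ N₀ : ℕ, ∀ c : ℝ, ∀ d : ℕ, ∀ T : Finset ℕ, T ⊆ range (l ^ d) →
      N₀ ≤ T.card → ∀ x : ℝ, ∃ t ∈ T, ∃ m < l ^ d, ∃ n : ℤ,
        |(b : ℝ) ^ m * (x + t) / (l : ℝ) ^ d - c - n| < r := by
  intro hM l hl hl2 b hb hlb r hr
  obtain ⟨ε, hε, hε1⟩ := exists_eps r hr
  obtain ⟨B, hB⟩ : ∃ B : ℝ, B = 4 / ε ^ 2 := ⟨_, rfl⟩
  have hB0 : 0 < B := by rw [hB]; positivity
  obtain ⟨N, hN⟩ : ∃ N : ℕ, N = ⌈B⌉₊ + 1 := ⟨_, rfl⟩
  have hNB : B + 1 ≤ N := by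
    rw [hN]
    push_cast
    linarith [Nat.le_ceil B]
  have hb0 : (0 : ℝ) ≤ (b : ℝ) - 1 := by
    have : (1 : ℝ) ≤ b := by exact_mod_cast hb.le
    linarith
  refine ⟨⌈(N : ℝ) ^ 5 * ((b : ℝ) - 1)⌉₊ + 1, fun c d T hT hTc x => ?_⟩
  by_contra hcon
  push Not at hcon
  obtain ⟨q, hq⟩ : ∃ q : ℕ, q = l ^ d := ⟨_, rfl⟩
  have hq0 : 0 < q := by rw [hq]; exact pow_pos hl.pos d
  have hqr : (0 : ℝ) < q := by exact_mod_cast hq0
  have hqe : (l : ℝ) ^ d = q := by rw [hq]; push_cast; rfl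
  rw [← hq] at hcon
  -- the points
  obtain ⟨y, hy⟩ : ∃ y : ℕ → ℕ → ℝ, ∀ m t, y m t = (b : ℝ) ^ m * (x + t) / (l : ℝ) ^ d - c :=
    ⟨_, fun m t => rfl⟩
  have hD : ∀ m ∈ range q, ∀ t ∈ T, ‖∑ i ∈ range N, e (i * y m t)‖ ^ 2 ≤ B := by
    intro m hm t ht
    rw [hB]
    apply geom_bound N ε _ hε
    apply hε1
    intro n
    rw [hy]
    exact hcon t ht m (mem_range.1 hm) n
  obtain ⟨Sg, hSg⟩ : ∃ Sg : ℝ, Sg = ∑ m ∈ range q, ∑ t ∈ T, ‖∑ i ∈ range N, e (i * y m t)‖ ^ 2 :=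
    ⟨_, rfl⟩
  have hS1 : Sg ≤ B * (q * T.card) := by
    rw [hSg]
    calc _ ≤ ∑ m ∈ range q, ∑ t ∈ T, B :=
          Finset.sum_le_sum fun m hm => Finset.sum_le_sum fun t ht => hD m hm t ht
      _ = _ := by
          rw [Finset.sum_const, Finset.sum_const, card_range, nsmul_eq_mul, nsmul_eq_mul]
          ring
  -- the expansion
  obtain ⟨W, hW⟩ : ∃ W : ℕ → ℕ → ℂ, ∀ i j, W i j =
      ∑ m ∈ range q, ∑ t ∈ T, e ((i : ℝ) * y m t - (j : ℝ) * y m t) := ⟨_, fun i j => rfl⟩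
  have hexp : (Sg : ℂ) = ∑ i ∈ range N, ∑ j ∈ range N, W i j := by
    rw [hSg, Complex.ofReal_sum]
    calc ∑ m ∈ range q, ((∑ t ∈ T, ‖∑ i ∈ range N, e (i * y m t)‖ ^ 2 : ℝ) : ℂ)
        = ∑ m ∈ range q, ∑ t ∈ T, ∑ i ∈ range N, ∑ j ∈ range N,
            e ((i : ℝ) * y m t - (j : ℝ) * y m t) := by
          refine Finset.sum_congr rfl fun m _ => ?_
          rw [Complex.ofReal_sum]
          exact Finset.sum_congr rfl fun t _ => sq_sum (range N) fun i => (i : ℝ) * y m t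
      _ = ∑ m ∈ range q, ∑ i ∈ range N, ∑ j ∈ range N, ∑ t ∈ T,
            e ((i : ℝ) * y m t - (j : ℝ) * y m t) := by
          refine Finset.sum_congr rfl fun m _ => ?_
          rw [Finset.sum_comm]
          exact Finset.sum_congr rfl fun i _ => Finset.sum_comm
      _ = ∑ i ∈ range N, ∑ j ∈ range N, ∑ m ∈ range q, ∑ t ∈ T,
            e ((i : ℝ) * y m t - (j : ℝ) * y m t) := by
          rw [Finset.sum_comm]
          exact Finset.sum_congr rfl fun i _ => Finset.sum_comm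
      _ = _ := by simp only [hW]
  obtain ⟨R, hR⟩ : ∃ R : ℝ, R = √(N * ((b : ℝ) - 1) * T.card) := ⟨_, rfl⟩
  have hR0 : 0 ≤ R := by rw [hR]; exact Real.sqrt_nonneg _
  have hR2 : R ^ 2 = N * ((b : ℝ) - 1) * T.card := by
    rw [hR]
    exact Real.sq_sqrt (by positivity)
  have hdiag : ∀ i, W i i = ((q * T.card : ℝ) : ℂ) := by
    intro i
    rw [hW]
    simp only [sub_self, e_zero, Finset.sum_const, card_range, nsmul_eq_mul]
    push_cast
    ring
  have hoff : ∀ i ∈ range N, ∀ j ∈ range N, i ≠ j → ‖W i j‖ ≤ q * R := by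
    intro i hi j hj hij
    rw [mem_range] at hi hj
    have hk : ((i : ℤ) - j) ≠ 0 := sub_ne_zero.2 (by exact_mod_cast hij)
    have h1 := hM l hl hl2 b hb hlb d ((i : ℤ) - j) hk T hT
    obtain ⟨g, hg⟩ : ∃ g : ℕ → ℝ, ∀ m, g m =
        ‖∑ t ∈ T, e ((((i : ℤ) - j : ℤ) : ℝ) * (b : ℝ) ^ m * t / (l : ℝ) ^ d)‖ := ⟨_, fun m => rfl⟩
    have h2 : ‖W i j‖ ≤ ∑ m ∈ range q, g m := by
      rw [hW]
      refine (norm_sum_le _ _).trans (Finset.sum_le_sum fun m _ => ?_)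
      rw [hg]
      have h3 : ∀ t : ℕ, e ((i : ℝ) * y m t - (j : ℝ) * y m t) =
          e (((i : ℝ) - j) * ((b : ℝ) ^ m * x / (l : ℝ) ^ d - c)) *
            e ((((i : ℤ) - j : ℤ) : ℝ) * (b : ℝ) ^ m * t / (l : ℝ) ^ d) := by
        intro t
        rw [← e_add, hy]
        congr 1
        push_cast
        ring
      simp only [h3]
      rw [← Finset.mul_sum, norm_mul, norm_e, one_mul]
    have h3 : (∑ m ∈ range q, g m) ^ 2 ≤ (q * R) ^ 2 := by
      calc (∑ m ∈ range q, g m) ^ 2 ≤ ((range q).card : ℝ) * ∑ m ∈ range q, g m ^ 2 :=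
            sq_sum_le_card_mul_sum_sq
        _ ≤ q * (|(((i : ℤ) - j : ℤ) : ℝ)| * ((b : ℝ) - 1) * (l : ℝ) ^ d * T.card) := by
            rw [card_range]
            refine mul_le_mul_of_nonneg_left ?_ hqr.le
            rw [← hq] at h1
            simpa only [hg] using h1
        _ ≤ q * ((N : ℝ) * ((b : ℝ) - 1) * (l : ℝ) ^ d * T.card) := by
            have h4 : |(((i : ℤ) - j : ℤ) : ℝ)| ≤ N := by
              have : |((i : ℤ) - j)| ≤ (N : ℤ) := by
                rw [abs_le]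
                constructor <;> omega
              exact_mod_cast this
            gcongr
        _ = (q * R) ^ 2 := by
            rw [mul_pow, hR2, hqe]
            ring
    exact h2.trans (abs_le_of_sq_le_sq' h3 (by positivity)).2
  -- the lower bound
  have hlow : ‖(Sg : ℂ) - ((N * (q * T.card) : ℝ) : ℂ)‖ ≤ N * (N * (q * R)) := by
    have h1 : (Sg : ℂ) - ((N * (q * T.card) : ℝ) : ℂ) = ∑ i ∈ range N, ∑ j ∈ range N,
        (W i j - if i = j then ((q * T.card : ℝ) : ℂ) else 0) := by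
      rw [hexp]
      simp only [Finset.sum_sub_distrib]
      congr 1
      have h2 : ∀ i ∈ range N, ∑ j ∈ range N, (if i = j then ((q * T.card : ℝ) : ℂ) else 0) =
          ((q * T.card : ℝ) : ℂ) := by
        intro i hi
        rw [Finset.sum_ite_eq, if_pos hi]
      rw [Finset.sum_congr rfl h2, Finset.sum_const, card_range, nsmul_eq_mul]
      push_cast
      ring
    rw [h1]
    refine (norm_sum_le _ _).trans ?_
    calc _ ≤ ∑ i ∈ range N, ∑ j ∈ range N, q * R := by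
          refine Finset.sum_le_sum fun i hi => (norm_sum_le _ _).trans
            (Finset.sum_le_sum fun j hj => ?_)
          by_cases hij : i = j
          · subst hij
            rw [if_pos rfl, hdiag, sub_self, norm_zero]
            positivity
          · rw [if_neg hij, sub_zero]
            exact hoff i hi j hj hij
      _ = _ := by
          rw [Finset.sum_const, Finset.sum_const, card_range, nsmul_eq_mul, nsmul_eq_mul]
  rw [← Complex.ofReal_sub, Complex.norm_real, Real.norm_eq_abs] at hlow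
  have h1 := (abs_le.1 hlow).1
  -- conclusion
  have h2 : (T.card : ℝ) ≤ N ^ 2 * R := by
    have h3 : (N * (q * T.card) : ℝ) - N * (N * (q * R)) ≤ B * (q * T.card) := by linarith
    have h4 : ((q : ℝ) * T.card) * 1 ≤ (q * T.card) * (N - B) :=
      mul_le_mul_of_nonneg_left (by linarith) (by positivity)
    have h5 : (q : ℝ) * T.card ≤ q * (N ^ 2 * R) := by linarith
    exact le_of_mul_le_mul_left h5 hqr
  have hT0 : (0 : ℝ) < T.card := by
    have : 0 < T.card := by omega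
    exact_mod_cast this
  have h3 : (T.card : ℝ) ^ 2 ≤ (N ^ 5 * ((b : ℝ) - 1)) * T.card := by
    calc (T.card : ℝ) ^ 2 ≤ (N ^ 2 * R) ^ 2 := pow_le_pow_left₀ hT0.le h2 2
      _ = N ^ 4 * R ^ 2 := by ring
      _ = _ := by rw [hR2]; ring
  have h4 : (T.card : ℝ) ≤ N ^ 5 * ((b : ℝ) - 1) := by
    rw [sq] at h3
    exact le_of_mul_le_mul_right h3 hT0
  have h5 : ((⌈(N : ℝ) ^ 5 * ((b : ℝ) - 1)⌉₊ + 1 : ℕ) : ℝ) ≤ T.card := by exact_mod_cast hTc
  have h6 := Nat.le_ceil ((N : ℝ) ^ 5 * ((b : ℝ) - 1))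
  push_cast at h5
  linarith

theorem t_HIT : S_MULT → S_HIT := by
  intro hM l hl hl2 b hb hlb c r hr
  obtain ⟨N₀, h⟩ := t_HITu hM l hl hl2 b hb hlb r hr
  exact ⟨N₀, fun d T hT hTc x => h c d T hT hTc x⟩

end Pool.Agent.D0H98.HS
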