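import Pool.Agent.D0H98.HS.Pars

/-! # Project HS: the multiplicities of the powers of `b` modulo `l ^ d` -/

set_option autoImplicit false

open Finset

namespace Pool.Agent.D0H98.HS

open Pool.Agent.D0H19.HS

/-- lifting the exponent -/
lemma lte (l : ℕ) (hl : l.Prime) (hl2 : l ≠ 2) (b : ℕ) (hb : 1 < b) (hlb : l ∣ b - 1) (d H : ℕ)
    (hH : H ≠ 0) (k : ℕ) (hk : k ≠ 0) (hdiv : l ^ d ∣ H * (b ^ k - 1)) :
    l ^ (d - (padicValNat l H + padicValNat l (b - 1))) ∣ k := by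
  have := Fact.mk hl
  have hlb' : ¬ l ∣ b := by
    intro h
    have h1 := (Nat.dvd_sub_iff_right (show 1 ≤ b by omega) h).1 hlb
    exact hl.one_lt.ne' (Nat.dvd_one.1 h1)
  have hbk : b ^ k - 1 ≠ 0 := by
    have : 1 < b ^ k := Nat.one_lt_pow hk hb
    omega
  have h1 := padicValNat.pow_sub_pow (p := l) (hl.odd_of_ne_two hl2) hb hlb hlb' hk
  rw [one_pow] at h1
  have h2 := (padicValNat_dvd_iff_le (mul_ne_zero hH hbk)).1 hdiv
  rw [padicValNat.mul hH hbk, h1] at h2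
  rw [padicValNat_dvd_iff_le hk]
  omega

/-- the residues -/
noncomputable def rr (l d : ℕ) (h : ℤ) (b m : ℕ) : ℕ := ((h * (b : ℤ) ^ m) % ((l ^ d : ℕ) : ℤ)).toNat

lemma rr_eq (l : ℕ) (hl : l.Prime) (d : ℕ) (h : ℤ) (b m : ℕ) :
    ((rr l d h b m : ℕ) : ℤ) = (h * (b : ℤ) ^ m) % ((l ^ d : ℕ) : ℤ) := by
  unfold rr
  rw [Int.toNat_of_nonneg]
  apply Int.emod_nonneg
  have : 0 < l ^ d := pow_pos hl.pos d
  omega

lemma rr_lt (l : ℕ) (hl : l.Prime) (d : ℕ) (h : ℤ) (b m : ℕ) : rr l d h b m < l ^ d := by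
  have h1 := rr_eq l hl d h b m
  have h0 : 0 < l ^ d := pow_pos hl.pos d
  have h2 := Int.emod_lt_of_pos (h * (b : ℤ) ^ m) (show (0 : ℤ) < ((l ^ d : ℕ) : ℤ) by omega)
  rw [← h1] at h2
  exact_mod_cast h2

/-- the fibres -/
lemma fibre (l : ℕ) (hl : l.Prime) (hl2 : l ≠ 2) (b : ℕ) (hb : 1 < b) (hlb : l ∣ b - 1) (d : ℕ)
    (h : ℤ) (hh : h ≠ 0) (a : ℕ) :
    ((range (l ^ d)).filter fun m => rr l d h b m = a).card ≤ h.natAbs * (b - 1) := by
  have := Fact.mk hl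
  obtain ⟨s, hs⟩ : ∃ s, s = padicValNat l h.natAbs + padicValNat l (b - 1) := ⟨_, rfl⟩
  obtain ⟨w, hw⟩ : ∃ w, w = l ^ (d - s) := ⟨_, rfl⟩
  have hw0 : 0 < w := by rw [hw]; exact pow_pos hl.pos _
  have hH : h.natAbs ≠ 0 := Int.natAbs_ne_zero.2 hh
  have hb1 : b - 1 ≠ 0 := by omega
  -- congruence
  have hcong : ∀ m m' : ℕ, m' < m → rr l d h b m = rr l d h b m' → w ∣ m - m' := by
    intro m m' hlt heq
    rw [hw, hs]
    apply lte l hl hl2 b hb hlb d h.natAbs hH (m - m') (by omega)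
    have h1 : ((l ^ d : ℕ) : ℤ) ∣ h * (b : ℤ) ^ m - h * (b : ℤ) ^ m' := by
      have e1 := rr_eq l hl d h b m
      have e2 := rr_eq l hl d h b m'
      rw [heq, e2] at e1
      exact Int.ModEq.dvd e1
    have h2 : h * (b : ℤ) ^ m - h * (b : ℤ) ^ m' =
        (b : ℤ) ^ m' * (h * (((b ^ (m - m') - 1 : ℕ)) : ℤ)) := by
      have h3 : 1 ≤ b ^ (m - m') := Nat.one_le_pow _ _ (by omega)
      rw [Nat.cast_sub h3]
      push_cast
      have h4 : (b : ℤ) ^ m = (b : ℤ) ^ m' * (b : ℤ) ^ (m - m') := by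
        rw [← pow_add]
        congr 1
        omega
      rw [h4]
      ring
    rw [h2] at h1
    have h3 : IsCoprime (((l ^ d : ℕ) : ℤ)) ((b : ℤ) ^ m') := by
      have h4 : Nat.Coprime (l ^ d) (b ^ m') := by
        apply Nat.Coprime.pow
        rw [hl.coprime_iff_not_dvd]
        intro h
        have h1 := (Nat.dvd_sub_iff_right (show 1 ≤ b by omega) h).1 hlb
        exact hl.one_lt.ne' (Nat.dvd_one.1 h1)
      have := Nat.isCoprime_iff_coprime.2 h4
      exact_mod_cast this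
    have h5 := h3.dvd_of_dvd_mul_left h1
    have h6 := Int.natAbs_dvd_natAbs.2 h5
    rw [Int.natAbs_natCast, Int.natAbs_mul, Int.natAbs_natCast] at h6
    exact h6
  -- counting
  have hcard : ((range (l ^ d)).filter fun m => rr l d h b m = a).card ≤ l ^ (d - (d - s)) := by
    rw [← card_range (l ^ (d - (d - s)))]
    apply Finset.card_le_card_of_injOn (fun m => m / w)
    · intro m hm
      have hm' := (mem_filter.1 hm).1
      rw [mem_range] at hm'
      rw [mem_coe, mem_range, Nat.div_lt_iff_lt_mul hw0, hw, ← pow_add]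
      refine hm'.trans_le (le_of_eq ?_)
      congr 1
      omega
    · intro m hm m' hm' heq
      have h1 := (mem_filter.1 hm).2
      have h2 := (mem_filter.1 hm').2
      have heq' : m / w = m' / w := heq
      have h3 : m % w = m' % w := by
        rcases lt_trichotomy m m' with hlt | rfl | hlt
        · exact (Nat.modEq_iff_dvd' hlt.le).2 (hcong m' m hlt (h2.trans h1.symm))
        · rfl
        · exact ((Nat.modEq_iff_dvd' hlt.le).2 (hcong m m' hlt (h1.trans h2.symm))).symm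
      rw [← Nat.div_add_mod m w, ← Nat.div_add_mod m' w, heq', h3]
  refine hcard.trans ?_
  calc l ^ (d - (d - s)) ≤ l ^ s := Nat.pow_le_pow_right hl.pos (by omega)
    _ = l ^ padicValNat l h.natAbs * l ^ padicValNat l (b - 1) := by rw [hs, pow_add]
    _ ≤ h.natAbs * (b - 1) := Nat.mul_le_mul
        (Nat.le_of_dvd (Nat.pos_of_ne_zero hH) pow_padicValNat_dvd)
        (Nat.le_of_dvd (Nat.pos_of_ne_zero hb1) pow_padicValNat_dvd)

theorem t_MULT : S_PARS → S_MULT := by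
  intro hP l hl hl2 b hb hlb d h hh T hT
  have hq : 0 < l ^ d := pow_pos hl.pos d
  have hqr : ((l ^ d : ℕ) : ℝ) ≠ 0 := by exact_mod_cast hq.ne'
  obtain ⟨f, hf⟩ : ∃ f : ℕ → ℝ, ∀ a, f a = ‖∑ t ∈ T, e ((a : ℝ) * t / ((l ^ d : ℕ) : ℝ))‖ ^ 2 :=
    ⟨_, fun a => rfl⟩
  have hf0 : ∀ a, 0 ≤ f a := fun a => by rw [hf]; positivity
  have h1 : ∀ m ∈ range (l ^ d), ‖∑ t ∈ T, e ((h : ℝ) * (b : ℝ) ^ m * t / (l : ℝ) ^ d)‖ ^ 2 =
      f (rr l d h b m) := by
    intro m _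
    rw [hf]
    congr 2
    refine Finset.sum_congr rfl fun t _ => ?_
    have h2 : (h * (b : ℤ) ^ m) = ((l ^ d : ℕ) : ℤ) * ((h * (b : ℤ) ^ m) / ((l ^ d : ℕ) : ℤ)) +
        ((rr l d h b m : ℕ) : ℤ) := by
      rw [rr_eq l hl]
      exact (Int.mul_ediv_add_emod _ _).symm
    have h3 : (h : ℝ) * (b : ℝ) ^ m = ((l ^ d : ℕ) : ℝ) *
        (((h * (b : ℤ) ^ m) / ((l ^ d : ℕ) : ℤ) : ℤ) : ℝ) + ((rr l d h b m : ℕ) : ℝ) := by
      exact_mod_cast h2
    rw [show (l : ℝ) ^ d = ((l ^ d : ℕ) : ℝ) by push_cast; rfl, h3]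
    rw [← e_int_add ((h * (b : ℤ) ^ m) / ((l ^ d : ℕ) : ℤ) * t)
      (((rr l d h b m : ℕ) : ℝ) * t / ((l ^ d : ℕ) : ℝ))]
    congr 1
    rw [Int.cast_mul, Int.cast_natCast]
    field_simp
  rw [Finset.sum_congr rfl h1]
  have h2 : ∑ m ∈ range (l ^ d), f (rr l d h b m) = ∑ a ∈ range (l ^ d),
      (((range (l ^ d)).filter fun m => rr l d h b m = a).card : ℝ) * f a := by
    rw [← Finset.sum_fiberwise_of_maps_to (g := fun m => rr l d h b m) (t := range (l ^ d))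
      (fun m _ => mem_range.2 (rr_lt l hl d h b m))]
    refine Finset.sum_congr rfl fun a _ => ?_
    rw [← nsmul_eq_mul, ← Finset.sum_const]
    refine Finset.sum_congr rfl fun m hm => ?_
    rw [(mem_filter.1 hm).2]
  rw [h2]
  have h3 : ∀ a ∈ range (l ^ d), (((range (l ^ d)).filter fun m => rr l d h b m = a).card : ℝ) *
      f a ≤ |(h : ℝ)| * ((b : ℝ) - 1) * f a := by
    intro a _
    refine mul_le_mul_of_nonneg_right ?_ (hf0 a)
    have h4 := fibre l hl hl2 b hb hlb d h hh a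
    have h5 : (((range (l ^ d)).filter fun m => rr l d h b m = a).card : ℝ) ≤
        ((h.natAbs * (b - 1) : ℕ) : ℝ) := by exact_mod_cast h4
    refine h5.trans (le_of_eq ?_)
    rw [Nat.cast_mul, Nat.cast_sub hb.le, Nat.cast_one, Nat.cast_natAbs, Int.cast_abs]
  refine (Finset.sum_le_sum h3).trans (le_of_eq ?_)
  rw [← Finset.mul_sum]
  have h4 := hP (l ^ d) hq T hT
  have h5 : ∑ a ∈ range (l ^ d), f a = ((l ^ d : ℕ) : ℝ) * T.card := by
    rw [← h4]
    exact Finset.sum_congr rfl fun a _ => hf a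
  rw [h5]
  push_cast
  ring

end Pool.Agent.D0H98.HS
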