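import Pool.Agent.D0H19.HS.Stm

/-! # Project HS: Parseval on `ℤ / q` and the powers of `b` modulo `l ^ d` -/

set_option autoImplicit false

open Finset

namespace Pool.Agent.D0H98.HS

open Pool.Agent.D0H19.HS

lemma e_add (x y : ℝ) : e (x + y) = e x * e y := by
  unfold e
  rw [← Complex.exp_add]
  congr 1
  push_cast
  ring

lemma e_zero : e 0 = 1 := by
  unfold e
  simp

lemma norm_e (x : ℝ) : ‖e x‖ = 1 := by
  unfold e
  exact Complex.norm_exp_ofReal_mul_I _

lemma e_int (n : ℤ) : e n = 1 := by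
  unfold e
  rw [Complex.exp_eq_one_iff]
  exact ⟨n, by push_cast; ring⟩

lemma e_int_add (n : ℤ) (x : ℝ) : e (n + x) = e x := by
  rw [e_add, e_int, one_mul]

lemma e_conj (x : ℝ) : (starRingEnd ℂ) (e x) = e (-x) := by
  unfold e
  rw [← Complex.exp_conj]
  congr 1
  rw [map_mul, Complex.conj_ofReal, Complex.conj_I]
  push_cast
  ring

lemma e_nat_mul (n : ℕ) (x : ℝ) : e (n * x) = e x ^ n := by
  unfold e
  rw [← Complex.exp_nat_mul]
  congr 1
  push_cast
  ring

lemma e_eq_one {x : ℝ} (h : e x = 1) : ∃ n : ℤ, x = n := by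
  unfold e at h
  rw [Complex.exp_eq_one_iff] at h
  obtain ⟨n, hn⟩ := h
  refine ⟨n, ?_⟩
  have h1 : ((2 * Real.pi * x : ℝ) : ℂ) = ((n * (2 * Real.pi) : ℝ) : ℂ) := by
    have hI : (Complex.I : ℂ) ≠ 0 := Complex.I_ne_zero
    apply mul_right_cancel₀ hI
    rw [hn]
    push_cast
    ring
  have h2 : 2 * Real.pi * x = n * (2 * Real.pi) := by exact_mod_cast h1
  have h3 : (2 * Real.pi) ≠ 0 := by positivity
  apply mul_left_cancel₀ h3
  rw [h2]
  ring

/-- the square of an exponential sum -/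
lemma sq_sum {ι : Type} (s : Finset ι) (g : ι → ℝ) :
    ((‖∑ i ∈ s, e (g i)‖ ^ 2 : ℝ) : ℂ) = ∑ i ∈ s, ∑ j ∈ s, e (g i - g j) := by
  rw [← Complex.normSq_eq_norm_sq, ← Complex.mul_conj, map_sum, Finset.sum_mul]
  refine Finset.sum_congr rfl fun i _ => ?_
  rw [Finset.mul_sum]
  refine Finset.sum_congr rfl fun j _ => ?_
  rw [e_conj, ← e_add, sub_eq_add_neg]

/-- the geometric progression -/
lemma geom (q : ℕ) (hq : 0 < q) (t s : ℕ) (ht : t < q) (hs : s < q) :
    ∑ a ∈ range q, e ((a : ℝ) * t / q - (a : ℝ) * s / q) = if t = s then (q : ℂ) else 0 := by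
  have hqr : (q : ℝ) ≠ 0 := by exact_mod_cast hq.ne'
  have h1 : ∀ a : ℕ, e ((a : ℝ) * t / q - (a : ℝ) * s / q) = e (((t : ℝ) - s) / q) ^ a := by
    intro a
    rw [← e_nat_mul]
    congr 1
    ring
  simp only [h1]
  split_ifs with hts
  · subst hts
    rw [sub_self, zero_div, e_zero]
    simp
  · have h2 : e (((t : ℝ) - s) / q) ≠ 1 := by
      intro h
      obtain ⟨n, hn⟩ := e_eq_one h
      rw [div_eq_iff hqr] at hn
      have h3 : (t : ℤ) - s = n * q := by exact_mod_cast hn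
      have h4 : n = 0 := by
        by_contra hne
        have h5 : 1 ≤ |n| := Int.one_le_abs hne
        have h6 : |(t : ℤ) - s| < q := by
          rw [abs_lt]
          constructor <;> omega
        rw [h3, abs_mul, Nat.abs_cast] at h6
        nlinarith
      rw [h4, zero_mul] at h3
      apply hts
      omega
    rw [geom_sum_eq h2, ← e_nat_mul]
    have h3 : (q : ℝ) * (((t : ℝ) - s) / q) = ((t - s : ℤ) : ℝ) := by
      push_cast
      field_simp
    rw [h3, e_int, sub_self, zero_div]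

theorem t_PARS : S_PARS := by
  intro q hq T hT
  have key : ((∑ a ∈ range q, ‖∑ t ∈ T, e ((a : ℝ) * t / q)‖ ^ 2 : ℝ) : ℂ) =
      (((q : ℝ) * T.card : ℝ) : ℂ) := by
    rw [Complex.ofReal_sum]
    calc ∑ a ∈ range q, ((‖∑ t ∈ T, e ((a : ℝ) * t / q)‖ ^ 2 : ℝ) : ℂ)
        = ∑ a ∈ range q, ∑ t ∈ T, ∑ s ∈ T, e ((a : ℝ) * t / q - (a : ℝ) * s / q) :=
          Finset.sum_congr rfl fun a _ => sq_sum T fun t => (a : ℝ) * t / q
      _ = ∑ t ∈ T, ∑ s ∈ T, ∑ a ∈ range q, e ((a : ℝ) * t / q - (a : ℝ) * s / q) := by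
          rw [Finset.sum_comm]
          exact Finset.sum_congr rfl fun t _ => Finset.sum_comm
      _ = ∑ t ∈ T, ∑ s ∈ T, if t = s then (q : ℂ) else 0 :=
          Finset.sum_congr rfl fun t ht => Finset.sum_congr rfl fun s hs =>
            geom q hq t s (mem_range.1 (hT ht)) (mem_range.1 (hT hs))
      _ = ∑ t ∈ T, (q : ℂ) := Finset.sum_congr rfl fun t ht => by
          rw [Finset.sum_ite_eq, if_pos ht]
      _ = (((q : ℝ) * T.card : ℝ) : ℂ) := by
          rw [Finset.sum_const, nsmul_eq_mul]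
          push_cast
          ring
  exact_mod_cast key

end Pool.Agent.D0H98.HS
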